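import Mathlib

/-!
# Project LR (MP_5c4bc0_an, first assertion of Q1): all roots of `L_{n,k}` are real and nonnegative
-/

namespace Pool.Agent.X119.LR

open Polynomial

/-- the operator `D - a` -/
noncomputable def Dm (a : ℚ) (P : ℚ[X]) : ℚ[X] := derivative P - C a * P

/-- `Om n P = (D - (n-1)) ... (D - 1) D P` -/
noncomputable def Om : ℕ → ℚ[X] → ℚ[X]
  | 0, P => P
  | n + 1, P => Dm (n : ℚ) (Om n P)

/-- all complex roots are real and nonnegative -/
def RR (P : ℚ[X]) : Prop := ∀ z : ℂ, aeval z P = 0 → z.im = 0 ∧ 0 ≤ z.re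

/-- PRES. Let `w` be a root of `P' - aP`, `a ≥ 0`, `P` not constant with all complex roots in `[0,∞)`.
If `P(w) = 0` fine. Otherwise `∑ 1/(w - r_j) = P'(w)/P(w) = a`
(`eval_derivative_div_eval_of_ne_zero_of_splits` over `ℂ`), the imaginary part gives `w.im = 0`, then
`w < 0` would give a negative sum. The degree of `Dm a P` is `deg P` if `a ≠ 0`, `deg P - 1` if `a = 0`. -/
def S_PRES : Prop := ∀ (P : ℚ[X]) (a : ℚ), 0 ≤ a → 0 < P.natDegree → RR P → RR (Dm a P)

/-- OM. From PRES by induction on `n`: `X^N`, `N > n ≥ 1` ... Only the first factor `D - 0` lowers the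
degree, so `natDegree (Om n (X^N)) = N - 1 > 0` for `n ≥ 1`, `N ≥ 2`. Second part: `X^(N-n)` divides. -/
def S_OM : Prop := (∀ n N : ℕ, 1 ≤ n → n < N → RR (Om n (X ^ N))) ∧
  (∀ n N : ℕ, n < N → (Om n (X ^ N)).eval 0 = 0)

/-- REC. `F = ∑ L_n T^n` with `L_0 = -X`, `L_{n+1}' = -L_n' + n L_n`, `L_n(0) = 0`. Then
`(1+T) ∂_X F = -1 + T² ∂_T F`, so for `k ≥ 1` `(1+T) ∂_X (F^k) = -k F^(k-1) + T² ∂_T (F^k)`; take the
coefficients of `T^n` (`∂_X` acts on coefficients; `∂_T = PowerSeries.derivative`/`d⁄dX`; the product rule for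
`∂_X` on powers may be proved from the Cauchy product or by induction on `k`). Also `F^k` at `X = 0` is `0`
for `k ≥ 1`. (If `∂_X` is inconvenient: prove by induction on `k` the coefficient identity.) -/
def S_REC : Prop := ∀ L : ℕ → ℚ[X], L 0 = -X → (∀ n, (L n).eval 0 = 0) →
  (∀ n : ℕ, derivative (L (n + 1)) = - derivative (L n) + (n : ℚ[X]) * L n) →
  ∀ k : ℕ,
    (∀ n, (PowerSeries.coeff n ((PowerSeries.mk L) ^ (k + 1))).eval 0 = 0) ∧
    derivative (PowerSeries.coeff 0 ((PowerSeries.mk L) ^ (k + 1))) =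
      - ((k + 1 : ℕ) : ℚ[X]) * PowerSeries.coeff 0 ((PowerSeries.mk L) ^ k) ∧
    ∀ n, derivative (PowerSeries.coeff (n + 1) ((PowerSeries.mk L) ^ (k + 1))) =
      - derivative (PowerSeries.coeff n ((PowerSeries.mk L) ^ (k + 1)))
      - ((k + 1 : ℕ) : ℚ[X]) * PowerSeries.coeff (n + 1) ((PowerSeries.mk L) ^ k)
      + (n : ℚ[X]) * PowerSeries.coeff n ((PowerSeries.mk L) ^ (k + 1))

end Pool.Agent.X119.LR
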